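import Pool.Agent.K3h83.IN.Stm5

/-! # Project OP (helper83): brick N6 (helper51) -/

set_option autoImplicit false

open scoped BigOperators Classical

noncomputable section

namespace Pool.Agent.K3h51.OP

open Pool.Agent.K3h3.MK Pool.Agent.K3h83.IN

theorem cl_sq (p : ℕ) [Fact p.Prime] {x y : ℕ} (hx : (x : ZMod p) ≠ 0) (hy : (y : ZMod p) ≠ 0)
    (h : (x : ZMod p) ^ 2 = (y : ZMod p) ^ 2) : cl p x = cl p y := by
  rw [cl_apply p hx, cl_apply p hy]
  congr 1
  ext
  simpa using h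

theorem one_le_sq {a : ℤ} (h : a ≠ 0) : 1 ≤ a ^ 2 := by
  have := Int.one_le_abs h
  nlinarith [sq_abs a, abs_nonneg a]

/-- integer vectors with different entries -/
theorem spread {f : ℕ} (v : Fin f → ℤ) (i₀ j₀ : Fin f) (h : v i₀ ≠ v j₀) :
    2 * (f : ℤ) - 2 ≤ ∑ i, ∑ j, (v i - v j) ^ 2 := by
  have hij : i₀ ≠ j₀ := fun h' => h (by rw [h'])
  have h1 : ∀ k, 1 ≤ (v k - v i₀) ^ 2 + (v k - v j₀) ^ 2 := by
    intro k
    by_cases hk : v k = v i₀
    · have := one_le_sq (sub_ne_zero.2 (fun h' => h (hk.symm.trans h')) : v k - v j₀ ≠ 0)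
      nlinarith [sq_nonneg (v k - v i₀)]
    · have := one_le_sq (sub_ne_zero.2 hk : v k - v i₀ ≠ 0)
      nlinarith [sq_nonneg (v k - v j₀)]
  have h2 : ∀ k, (v k - v i₀) ^ 2 + (v k - v j₀) ^ 2 ≤ ∑ j, (v k - v j) ^ 2 := by
    intro k
    rw [← Finset.sum_pair hij (f := fun j => (v k - v j) ^ 2)]
    exact Finset.sum_le_sum_of_subset_of_nonneg (Finset.subset_univ _)
      (fun _ _ _ => sq_nonneg _)
  have hT : Finset.card (Finset.univ \ {i₀, j₀} : Finset (Fin f)) + 2 = f := by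
    rw [Finset.card_sdiff_of_subset (Finset.subset_univ _), Finset.card_pair hij,
      Finset.card_univ, Fintype.card_fin]
    have h3 : Finset.card ({i₀, j₀} : Finset (Fin f)) ≤ Finset.card (Finset.univ : Finset (Fin f)) :=
      Finset.card_le_card (Finset.subset_univ _)
    rw [Finset.card_pair hij, Finset.card_univ, Fintype.card_fin] at h3
    omega
  rw [← Finset.sum_sdiff (Finset.subset_univ ({i₀, j₀} : Finset (Fin f))), Finset.sum_pair hij]
  have h3 : ((Finset.univ \ {i₀, j₀} : Finset (Fin f)).card : ℤ) ≤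
      ∑ i ∈ Finset.univ \ {i₀, j₀}, ∑ j, (v i - v j) ^ 2 := by
    rw [← nsmul_one, ← Finset.sum_const]
    exact Finset.sum_le_sum fun k _ => (h1 k).trans (h2 k)
  have h4 : (f : ℤ) ≤ ∑ j, (v i₀ - v j) ^ 2 + ∑ j, (v j₀ - v j) ^ 2 := by
    rw [← Finset.sum_add_distrib]
    have h5 : (f : ℤ) = ∑ _j : Fin f, (1 : ℤ) := by
      rw [Finset.sum_const, Finset.card_univ, Fintype.card_fin, nsmul_one]
    rw [h5]
    refine Finset.sum_le_sum fun k _ => (h1 k).trans (le_of_eq ?_)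
    ring
  have h5 : ((Finset.univ \ {i₀, j₀} : Finset (Fin f)).card : ℤ) + 2 = f := by exact_mod_cast hT
  linarith

theorem t_N6 : N6 := by
  intro p _ ι I e f hef u a hG ha
  have hp := (Fact.out : p.Prime).two_le
  have he : 1 ≤ e := by
    rcases Nat.eq_zero_or_pos e with h | h
    · rw [h, zero_mul] at hef; omega
    · exact h
  have hf : 1 ≤ f := by
    rcases Nat.eq_zero_or_pos f with h | h
    · rw [h, mul_zero] at hef; omega
    · exact h
  have hep : e < p := by nlinarith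
  have he0 : (e : ZMod p) ≠ 0 := by
    rw [Ne, ZMod.natCast_eq_zero_iff]
    exact fun h => absurd (Nat.le_of_dvd (by omega) h) (by omega)
  obtain ⟨J, hJ⟩ : ∃ J, I.filter (fun χ => ¬ p ∣ a χ) = J := ⟨_, rfl⟩
  rw [hJ]
  have hJI : J ⊆ I := by rw [← hJ]; exact Finset.filter_subset _ _
  have haJ : ∀ χ ∈ J, (a χ : ZMod p) ≠ 0 := by
    intro χ hχ
    rw [← hJ, Finset.mem_filter] at hχ
    rw [Ne, ZMod.natCast_eq_zero_iff]
    exact hχ.2
  have hne : ∀ χ ∈ J, ∃ i, u i χ ≠ 0 := by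
    intro χ hχ
    by_contra hcon
    push Not at hcon
    apply haJ χ hχ
    rw [ha χ (hJI hχ), Finset.sum_eq_zero (fun i _ => hcon i), Int.cast_zero, mul_zero]
  -- the two sums
  have hA : ∑ χ ∈ I, ∑ i, u i χ ^ 2 = f * (e + 1) := by
    rw [Finset.sum_comm]
    have h1 : ∀ i, ∑ χ ∈ I, u i χ ^ 2 = (e : ℤ) + 1 := by
      intro i
      have h2 := hG i i
      rw [if_pos rfl] at h2
      rw [← h2]
      exact Finset.sum_congr rfl fun χ _ => sq _
    rw [Finset.sum_congr rfl fun i _ => h1 i, Finset.sum_const, Finset.card_univ,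
      Fintype.card_fin, nsmul_eq_mul]
  have hB : ∑ χ ∈ I, ∑ i, ∑ j, (u i χ - u j χ) ^ 2 = 2 * f * (f - 1) := by
    rw [Finset.sum_comm]
    have h1 : ∀ i, ∑ χ ∈ I, ∑ j, (u i χ - u j χ) ^ 2 = 2 * f - 2 := by
      intro i
      rw [Finset.sum_comm]
      have h2 : ∀ j, ∑ χ ∈ I, (u i χ - u j χ) ^ 2 = 2 - 2 * if i = j then 1 else 0 := by
        intro j
        have h3 : ∑ χ ∈ I, (u i χ - u j χ) ^ 2 = ∑ χ ∈ I, u i χ * u i χ +
            ∑ χ ∈ I, u j χ * u j χ - 2 * ∑ χ ∈ I, u i χ * u j χ := by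
          rw [Finset.mul_sum, ← Finset.sum_add_distrib, ← Finset.sum_sub_distrib]
          exact Finset.sum_congr rfl fun χ _ => by ring
        rw [h3, hG i i, hG j j, hG i j, if_pos rfl, if_pos rfl]
        ring
      rw [Finset.sum_congr rfl fun j _ => h2 j, Finset.sum_sub_distrib, ← Finset.mul_sum,
        Finset.sum_ite_eq, if_pos (Finset.mem_univ i), Finset.sum_const, Finset.card_univ,
        Fintype.card_fin, nsmul_eq_mul]
      ring
    rw [Finset.sum_congr rfl fun i _ => h1 i, Finset.sum_const, Finset.card_univ,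
      Fintype.card_fin, nsmul_eq_mul]
    ring
  -- the two sets
  obtain ⟨S₀, hS₀⟩ : ∃ S, J.filter (fun χ => ∀ i j, u i χ = u j χ) = S := ⟨_, rfl⟩
  obtain ⟨S₁, hS₁⟩ : ∃ S, J.filter (fun χ => ¬ ∀ i j, u i χ = u j χ) = S := ⟨_, rfl⟩
  have hcard : S₀.card + S₁.card = J.card := by
    rw [← hS₀, ← hS₁]
    exact Finset.card_filter_add_card_filter_not _
  have m0 : ∀ χ ∈ S₀, χ ∈ J ∧ ∀ i j, u i χ = u j χ := fun χ hχ => by
    rw [← hS₀] at hχ
    exact Finset.mem_filter.1 hχ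
  have m1 : ∀ χ ∈ S₁, χ ∈ J ∧ ¬ ∀ i j, u i χ = u j χ := fun χ hχ => by
    rw [← hS₁] at hχ
    exact Finset.mem_filter.1 hχ
  have i0 : Fin f := ⟨0, hf⟩
  have q0 : ∀ χ ∈ S₀, ∑ i, u i χ ^ 2 = f * u i0 χ ^ 2 ∧ u i0 χ ≠ 0 := by
    intro χ hχ
    obtain ⟨hχJ, hall⟩ := m0 χ hχ
    constructor
    · rw [Finset.sum_congr rfl fun i _ => by rw [hall i i0], Finset.sum_const, Finset.card_univ,
        Fintype.card_fin, nsmul_eq_mul]
    · obtain ⟨i, hi⟩ := hne χ hχJ
      rwa [hall i0 i]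
  have q1 : ∀ χ ∈ S₁, 1 ≤ ∑ i, u i χ ^ 2 := by
    intro χ hχ
    obtain ⟨i, hi⟩ := hne χ (m1 χ hχ).1
    exact (one_le_sq hi).trans (Finset.single_le_sum (f := fun i => u i χ ^ 2)
      (fun _ _ => sq_nonneg _) (Finset.mem_univ i))
  have q2 : ∀ χ ∈ S₁, 2 * (f : ℤ) - 2 ≤ ∑ i, ∑ j, (u i χ - u j χ) ^ 2 := by
    intro χ hχ
    have h1 := (m1 χ hχ).2
    push Not at h1
    obtain ⟨i, j, hij⟩ := h1
    exact spread (fun i => u i χ) i j hij
  have hA' : ∑ χ ∈ S₀, (f : ℤ) * u i0 χ ^ 2 + ∑ χ ∈ S₁, ∑ i, u i χ ^ 2 ≤ f * (e + 1) := by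
    rw [← hA, ← Finset.sum_congr rfl fun χ hχ => (q0 χ hχ).1, ← hS₀, ← hS₁,
      Finset.sum_filter_add_sum_filter_not]
    exact Finset.sum_le_sum_of_subset_of_nonneg hJI
      (fun _ _ _ => Finset.sum_nonneg fun _ _ => sq_nonneg _)
  have hB' : (S₁.card : ℤ) * (2 * f - 2) ≤ 2 * f * (f - 1) := by
    rw [← hB, ← nsmul_eq_mul, ← Finset.sum_const]
    refine (Finset.sum_le_sum q2).trans ?_
    exact Finset.sum_le_sum_of_subset_of_nonneg (fun χ hχ => hJI (m1 χ hχ).1)
      (fun _ _ _ => Finset.sum_nonneg fun _ _ => Finset.sum_nonneg fun _ _ => sq_nonneg _)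
  have hq0 : ∀ χ ∈ S₀, (1 : ℤ) ≤ u i0 χ ^ 2 := fun χ hχ => one_le_sq (q0 χ hχ).2
  have hc0 : (S₀.card : ℤ) ≤ ∑ χ ∈ S₀, u i0 χ ^ 2 := by
    rw [← nsmul_one, ← Finset.sum_const]
    exact Finset.sum_le_sum hq0
  have hc1 : (S₁.card : ℤ) ≤ ∑ χ ∈ S₁, ∑ i, u i χ ^ 2 := by
    rw [← nsmul_one, ← Finset.sum_const]
    exact Finset.sum_le_sum q1
  rw [← Finset.mul_sum] at hA'
  have hfz : (1 : ℤ) ≤ f := by exact_mod_cast hf
  -- `S₁` has at most `f` elements
  have hs1 : (S₁.card : ℤ) ≤ f ∧ (f = 1 → S₁.card = 0) := by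
    constructor
    · rcases eq_or_lt_of_le hf with h | h
      · have : S₁ = ∅ := by
          rw [Finset.eq_empty_iff_forall_notMem]
          intro χ hχ
          apply (m1 χ hχ).2
          intro i j
          have : i = j := by
            apply Fin.ext
            have := i.2
            have := j.2
            omega
          rw [this]
        rw [this, Finset.card_empty]
        exact_mod_cast Nat.zero_le _
      · have h2 : (2 : ℤ) ≤ f := by exact_mod_cast h
        by_contra hcon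
        push Not at hcon
        nlinarith
    · intro h
      rw [Finset.card_eq_zero, Finset.eq_empty_iff_forall_notMem]
      intro χ hχ
      apply (m1 χ hχ).2
      intro i j
      have : i = j := by
        apply Fin.ext
        have := i.2
        have := j.2
        omega
      rw [this]
  have hmain : (S₀.card : ℤ) + S₁.card ≤ e + f := by
    by_contra hcon
    push Not at hcon
    nlinarith
  refine ⟨by rw [← hcard]; exact_mod_cast hmain, fun heq => ?_⟩
  rw [← hcard] at heq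
  have heq' : (S₀.card : ℤ) + S₁.card = e + f := by exact_mod_cast heq
  -- equality
  have hsum0 : ∑ χ ∈ S₀, u i0 χ ^ 2 ≤ S₀.card := by
    by_contra hcon
    push Not at hcon
    rcases eq_or_lt_of_le hf with h | h
    · have h1 := hs1.2 h.symm
      rw [h1] at heq' hc1
      push_cast at heq' hc1
      nlinarith
    · have h2 : (2 : ℤ) ≤ f := by exact_mod_cast h
      nlinarith [hs1.1]
  have hsum1 : ∑ χ ∈ S₁, ∑ i, u i χ ^ 2 ≤ S₁.card := by
    by_contra hcon
    push Not at hcon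
    nlinarith [hs1.1]
  have r0 : ∀ χ ∈ S₀, u i0 χ ^ 2 = 1 := by
    have h1 : ∑ χ ∈ S₀, (1 : ℤ) = ∑ χ ∈ S₀, u i0 χ ^ 2 := by
      rw [Finset.sum_const, nsmul_one]
      exact le_antisymm hc0 hsum0
    intro χ hχ
    exact ((Finset.sum_eq_sum_iff_of_le hq0).1 h1 χ hχ).symm
  have r1 : ∀ χ ∈ S₁, ∑ i, u i χ ^ 2 = 1 := by
    have h1 : ∑ χ ∈ S₁, (1 : ℤ) = ∑ χ ∈ S₁, ∑ i, u i χ ^ 2 := by
      rw [Finset.sum_const, nsmul_one]
      exact le_antisymm hc1 hsum1
    intro χ hχ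
    exact ((Finset.sum_eq_sum_iff_of_le q1).1 h1 χ hχ).symm
  have hefp : (e : ZMod p) * f = -1 := by
    have h1 : ((e * f + 1 : ℕ) : ZMod p) = 0 := by rw [hef, ZMod.natCast_self]
    push_cast at h1
    linear_combination h1
  have hone : (1 : RR p) = cl p 1 := (map_one _).symm
  have c0 : ∀ χ ∈ S₀, cl p (a χ) = 1 := by
    intro χ hχ
    obtain ⟨hχJ, hall⟩ := m0 χ hχ
    rw [hone]
    apply cl_sq p (haJ χ hχJ) (by simp)
    rw [ha χ (hJI hχJ), Finset.sum_congr rfl fun i _ => hall i i0, Finset.sum_const,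
      Finset.card_univ, Fintype.card_fin, nsmul_eq_mul]
    have h1 : ((u i0 χ : ℤ) : ZMod p) ^ 2 = 1 := by
      have := congrArg (fun z : ℤ => (z : ZMod p)) (r0 χ hχ)
      push_cast at this
      exact this
    push_cast
    rw [← mul_assoc, hefp, mul_pow, h1]
    norm_num
  have c1 : ∀ χ ∈ S₁, cl p (a χ) = cl p e := by
    intro χ hχ
    obtain ⟨hχJ, -⟩ := m1 χ hχ
    apply cl_sq p (haJ χ hχJ) he0
    obtain ⟨i, hi⟩ := hne χ hχJ
    have h1 := r1 χ hχ
    rw [← Finset.add_sum_erase _ _ (Finset.mem_univ i)] at h1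
    have h2 : ∑ j ∈ Finset.univ.erase i, u j χ ^ 2 = 0 := by
      have h3 := one_le_sq hi
      have h4 : 0 ≤ ∑ j ∈ Finset.univ.erase i, u j χ ^ 2 :=
        Finset.sum_nonneg fun _ _ => sq_nonneg _
      omega
    have h3 : u i χ ^ 2 = 1 := by omega
    have h4 : ∀ j ∈ Finset.univ.erase i, u j χ = 0 := fun j hj => by
      have := (Finset.sum_eq_zero_iff_of_nonneg (fun _ _ => sq_nonneg _)).1 h2 j hj
      exact pow_eq_zero_iff (two_ne_zero) |>.1 this
    have h5 : ∑ j, u j χ = u i χ := by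
      rw [← Finset.add_sum_erase _ _ (Finset.mem_univ i), Finset.sum_eq_zero h4, add_zero]
    rw [ha χ (hJI hχJ), h5]
    have h6 : ((u i χ : ℤ) : ZMod p) ^ 2 = 1 := by
      have := congrArg (fun z : ℤ => (z : ZMod p)) h3
      push_cast at this
      exact this
    rw [mul_pow, h6, mul_one]
  have hfin : ∑ χ ∈ J, cl p (a χ) = (S₀.card : RR p) + (S₁.card : RR p) * cl p e := by
    rw [← Finset.sum_filter_add_sum_filter_not J (fun χ => ∀ i j, u i χ = u j χ), hS₀, hS₁,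
      Finset.sum_congr rfl c0, Finset.sum_congr rfl c1, Finset.sum_const, Finset.sum_const,
      nsmul_one, nsmul_eq_mul]
  rw [hfin]
  rcases eq_or_lt_of_le hf with h | h
  · have h1 := hs1.2 h.symm
    have h2 : cl p e = 1 := by
      rw [hone]
      apply cl_sq p he0 (by simp)
      rw [← h, Nat.cast_one, mul_one] at hefp
      rw [hefp]
      norm_num
    have h3 : S₀.card = e + f := by omega
    rw [h1, h2, h3]
    push_cast
    ring
  · have h2 : (2 : ℤ) ≤ f := by exact_mod_cast h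
    have h3 : (S₁.card : ℤ) = f := by
      apply le_antisymm hs1.1
      by_contra hcon
      push Not at hcon
      nlinarith
    have h4 : S₁.card = f := by exact_mod_cast h3
    have h5 : S₀.card = e := by omega
    rw [h4, h5]

end Pool.Agent.K3h51.OP
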