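import Pool.Agent.K3h83.IN.Stm5

/-! # Project OP (helper83): bricks N0 and N5 (helper51) -/

set_option autoImplicit false

open scoped BigOperators Classical

noncomputable section

namespace Pool.Agent.K3h51.OP

open Pool.Agent.K3h3.MK Pool.Agent.K3h83.IN
open Pool.Agent.H254R3.IN (IsIrr)

theorem comm_of_card {p : ℕ} [Fact p.Prime] {A : Type} [Group A] {P : Subgroup A}
    (cP : Nat.card P = p) : ∀ x ∈ P, ∀ y ∈ P, x * y = y * x := by
  intro x hx y hy
  have hc : IsCyclic P := isCyclic_of_prime_card cP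
  have h1 : (⟨x, hx⟩ : P) * ⟨y, hy⟩ = ⟨y, hy⟩ * ⟨x, hx⟩ := by
    let _ := IsCyclic.commGroup (α := P)
    exact mul_comm (G := P) _ _
  exact congrArg Subtype.val h1

/-- the complement of `P` in its centralizer -/
theorem exLD (p : ℕ) [hp : Fact p.Prime] {A : Type} [Group A] [Finite A] (P : Subgroup A)
    (nP : P.Normal) (cP : Nat.card P = p) (idx : ¬ p ∣ P.index) : ∃ H : Subgroup A, LD p P H := by
  have hcomm := comm_of_card cP
  obtain ⟨C, hC⟩ : ∃ C, C = Subgroup.centralizer (P : Set A) := ⟨_, rfl⟩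
  have mC : ∀ g, g ∈ C ↔ ∀ x ∈ P, x * g = g * x := by
    intro g
    rw [hC, Subgroup.mem_centralizer_iff]
    rfl
  have hPC : P ≤ C := fun x hx => (mC x).2 fun y hy => hcomm y hy x hx
  have nC : ∀ c ∈ C, ∀ a : A, a * c * a⁻¹ ∈ C := by
    intro c hc a
    rw [mC] at hc ⊢
    intro x hx
    have h1 := hc (a⁻¹ * x * a) (by
      have := nP.conj_mem x hx a⁻¹
      rwa [inv_inv] at this)
    calc x * (a * c * a⁻¹) = a * ((a⁻¹ * x * a) * c) * a⁻¹ := by group
      _ = a * (c * (a⁻¹ * x * a)) * a⁻¹ := by rw [h1]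
      _ = a * c * a⁻¹ * x := by group
  have hn : (P.subgroupOf C).Normal := nP.subgroupOf C
  have hcard : Nat.card (P.subgroupOf C) = p := by
    rw [Nat.card_congr (Subgroup.subgroupOfEquivOfLe hPC).toEquiv, cP]
  have hidx : ¬ p ∣ (P.subgroupOf C).index := by
    intro h
    apply idx
    rw [← Subgroup.relIndex_mul_index hPC]
    exact Dvd.dvd.mul_right h _
  have hcop : Nat.Coprime (Nat.card (P.subgroupOf C)) (P.subgroupOf C).index := by
    rw [hcard]
    exact (Nat.Prime.coprime_iff_not_dvd hp.out).2 hidx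
  obtain ⟨K, hK⟩ := Subgroup.exists_right_complement'_of_coprime hcop
  have hKc : ¬ p ∣ Nat.card K := by
    rwa [← hK.symm.index_eq_card]
  have dec : ∀ c ∈ C, ∃ x ∈ P, ∃ k ∈ K, c = x * (k : A) := by
    intro c hc
    obtain ⟨⟨x, k⟩, h⟩ := hK.2 ⟨c, hc⟩
    refine ⟨x.1, x.2, k, k.2, ?_⟩
    exact (congrArg Subtype.val h).symm
  have char1 : ∀ c ∈ C, ¬ p ∣ orderOf c → c ∈ K.map C.subtype := by
    intro c hc ho
    obtain ⟨x, hx, k, hk, rfl⟩ := dec c hc
    have hkx : Commute x (k : A) := (mC k).1 k.2 x hx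
    have hok : ¬ p ∣ orderOf (k : A) := by
      intro h
      apply hKc
      refine h.trans ?_
      rw [Subgroup.orderOf_coe]
      have := orderOf_dvd_natCard (⟨k, hk⟩ : K)
      rwa [← Subgroup.orderOf_coe] at this
    have hx1 : x = 1 := by
      have h1 : x = (x * (k : A)) * (k : A)⁻¹ := by group
      have h2 : Commute (x * (k : A)) (k : A)⁻¹ := by
        apply Commute.inv_right
        exact hkx.mul_left (Commute.refl _)
      have h3 : orderOf x ∣ (orderOf (x * (k : A))) * orderOf ((k : A)⁻¹) := by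
        conv_lhs => rw [h1]
        exact h2.orderOf_mul_dvd_mul_orderOf
      rw [orderOf_inv] at h3
      have h4 : orderOf x ∣ p := by
        rw [← cP]
        have := orderOf_dvd_natCard (⟨x, hx⟩ : P)
        rwa [← Subgroup.orderOf_coe] at this
      rcases (Nat.dvd_prime hp.out).1 h4 with h5 | h5
      · exact orderOf_eq_one_iff.1 h5
      · rw [h5] at h3
        exact absurd h3 (hp.out.not_dvd_mul ho hok)
    rw [hx1, one_mul]
    exact ⟨k, hk, rfl⟩
  have hHC : K.map C.subtype ≤ C := by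
    rintro _ ⟨k, -, rfl⟩
    exact k.2
  have hcH : Nat.card (K.map C.subtype) = Nat.card K :=
    Subgroup.card_map_of_injective C.subtype_injective
  refine ⟨K.map C.subtype, nP, ?_, cP, by rwa [hcH], idx, ?_, ?_⟩
  · constructor
    intro h hh a
    apply char1 _ (nC h (hHC hh) a)
    have h1 : orderOf (a * h * a⁻¹) = orderOf h := by
      have := orderOf_injective (MulAut.conj a).toMonoidHom (MulAut.conj a).injective h
      simpa using this
    rw [h1]
    intro hd
    have h2 := orderOf_dvd_natCard (⟨h, hh⟩ : K.map C.subtype)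
    rw [← Subgroup.orderOf_coe, hcH] at h2
    exact hKc (hd.trans h2)
  · rw [← hC]
    apply le_antisymm
    · intro c hc
      obtain ⟨x, hx, k, hk, rfl⟩ := dec c hc
      exact Subgroup.mul_mem_sup hx ⟨k, hk, rfl⟩
    · exact sup_le hPC hHC
  · intro x hx y hy
    exact (mC y).1 (hHC hy) x hx

theorem t_N0 : N0 := by
  intro p hp G _ _ P cP
  have hle : (P : Subgroup G) ≤ NN P := Subgroup.le_normalizer
  have hn : ((P : Subgroup G).subgroupOf (NN P)).Normal := Subgroup.normal_in_normalizer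
  have hc : Nat.card ((P : Subgroup G).subgroupOf (NN P)) = p := by
    rw [Nat.card_congr (Subgroup.subgroupOfEquivOfLe hle).toEquiv]
    exact cP
  have hi : ¬ p ∣ (P : Subgroup G).index := P.not_dvd_index
  have hi' : ¬ p ∣ ((P : Subgroup G).subgroupOf (NN P)).index := by
    intro h
    apply hi
    rw [← Subgroup.relIndex_mul_index hle]
    exact Dvd.dvd.mul_right h _
  obtain ⟨H, hH⟩ := exLD p _ hn hc hi'
  refine ⟨H, hH, ⟨Subgroup.subtype_injective _, fun g hg => ?_, ?_⟩,
    ⟨fun _ _ h => h, fun g _ => ⟨g, rfl⟩, ?_⟩⟩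
  · rw [Subgroup.range_subtype]
    apply Subgroup.mem_normalizer_fintype
    intro x hx
    obtain ⟨y, hy, h⟩ := hg ⟨x, hle hx⟩ hx
    have h1 : g * x * g⁻¹ = (y : G) := h
    rw [h1]
    exact hy
  · rw [Subgroup.subgroupOf_map_subtype, inf_eq_left.2 hle]
    exact hi
  · rwa [Subgroup.map_id]

/-- the order of the centralizer -/
theorem card_sup {p : ℕ} [hp : Fact p.Prime] {A : Type} [Group A] [Finite A] {P H : Subgroup A}
    (h : LD p P H) : Nat.card (P ⊔ H : Subgroup A) = p * Nat.card H := by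
  have hnH := h.nH
  have hinf : P ⊓ H = ⊥ := by
    rw [Subgroup.eq_bot_iff_forall]
    rintro x ⟨hx, hx'⟩
    have h1 := orderOf_dvd_natCard (⟨x, hx⟩ : P)
    have h2 := orderOf_dvd_natCard (⟨x, hx'⟩ : H)
    rw [← Subgroup.orderOf_coe] at h1 h2
    rw [h.cP] at h1
    rcases (Nat.dvd_prime hp.out).1 h1 with h3 | h3
    · exact orderOf_eq_one_iff.1 h3
    · exact absurd (h3 ▸ h2) h.cH
  have key : Function.Bijective (fun z : P × H =>
      (⟨(z.1 : A) * z.2, Subgroup.mul_mem_sup z.1.2 z.2.2⟩ : (P ⊔ H : Subgroup A))) := by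
    constructor
    · rintro ⟨x, y⟩ ⟨x', y'⟩ hxy
      have h1 : (x : A) * y = x' * y' := congrArg Subtype.val hxy
      have h2 : (x' : A)⁻¹ * x = y' * (y : A)⁻¹ := by
        rw [inv_mul_eq_iff_eq_mul, ← mul_assoc, ← h1, mul_assoc, mul_inv_cancel, mul_one]
      have h3 : (x' : A)⁻¹ * x ∈ P ⊓ H :=
        ⟨P.mul_mem (P.inv_mem x'.2) x.2, by rw [h2]; exact H.mul_mem y'.2 (H.inv_mem y.2)⟩
      rw [hinf, Subgroup.mem_bot] at h3
      have h4 : (x : A) = x' := by
        rw [inv_mul_eq_one] at h3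
        exact h3.symm
      rw [h4, mul_right_inj] at h1
      exact Prod.ext (Subtype.ext h4) (Subtype.ext h1)
    · rintro ⟨c, hc⟩
      obtain ⟨x, hx, y, hy, rfl⟩ := Subgroup.mem_sup_of_normal_right.1 hc
      exact ⟨(⟨x, hx⟩, ⟨y, hy⟩), rfl⟩
  rw [← Nat.card_congr (Equiv.ofBijective _ key), Nat.card_prod, h.cP]

theorem t_N5 : N5 := by
  intro p hp A _ _ P H hL φ hφ
  have hnP := hL.nP
  have hnH := hL.nH
  have hnr : H.subtype.range.Normal := by rw [Subgroup.range_subtype]; exact hL.nH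
  obtain ⟨T, hT⟩ : ∃ T, Tst H.subtype H.subtype_injective hnr φ = T := ⟨_, rfl⟩
  have mT : ∀ x, x ∈ T ↔ fixes H.subtype φ x := fun x => by rw [← hT]; exact mem_Tst
  have hstb : stb H φ = Nat.card T := by
    unfold stb
    exact Nat.card_congr (Equiv.subtypeEquivRight fun x => (mT x).symm)
  have hCT : P ⊔ H ≤ T := by
    apply sup_le
    · intro x hx
      rw [mT]
      intro l l' h
      have h1 : x * (l : A) * x⁻¹ = l := by
        rw [hL.com x hx l l.2, mul_assoc, mul_inv_cancel, mul_one]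
      have h2 : l = l' := Subtype.ext (h1.symm.trans h)
      rw [h2]
    · have := range_le_Tst H.subtype H.subtype_injective hnr hφ
      rwa [Subgroup.range_subtype, hT] at this
  obtain ⟨C, hC⟩ : ∃ C, P ⊔ H = C := ⟨_, rfl⟩
  rw [hC] at hCT
  have hcC : Nat.card C = p * Nat.card H := by rw [← hC]; exact card_sup hL
  have h1 : Nat.card T = (C.subgroupOf T).index * (p * Nat.card H) := by
    rw [← hcC, ← Nat.card_congr (Subgroup.subgroupOfEquivOfLe hCT).toEquiv, mul_comm]
    exact (Subgroup.card_mul_index _).symm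
  -- the action on `P`
  have hker : ((MulAut.conjNormal (H := P)).comp T.subtype).ker = C.subgroupOf T := by
    ext x
    rw [MonoidHom.mem_ker, Subgroup.mem_subgroupOf, ← hC, ← hL.cen,
      Subgroup.mem_centralizer_iff]
    constructor
    · intro h y hy
      have h2 : MulAut.conjNormal (H := P) (x : A) ⟨y, hy⟩ = ⟨y, hy⟩ := by
        have := congrArg (fun f : MulAut P => f ⟨y, hy⟩) h
        exact this
      have h3 := congrArg Subtype.val h2
      rw [MulAut.conjNormal_apply] at h3
      have h4 : (x : A) * y * (x : A)⁻¹ = y := h3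
      rw [mul_inv_eq_iff_eq_mul] at h4
      exact h4.symm
    · intro h
      apply MulEquiv.ext
      intro y
      apply Subtype.ext
      have h2 : ((MulAut.conjNormal (H := P) (x : A) y : P) : A) = x * y * (x : A)⁻¹ :=
        MulAut.conjNormal_apply _ _
      have h3 : (y : A) * x = x * y := h y y.2
      change ((MulAut.conjNormal (H := P) (x : A) y : P) : A) = y
      rw [h2, ← h3, mul_assoc, mul_inv_cancel, mul_one]
  have hcyc : IsCyclic P := isCyclic_of_prime_card hL.cP
  have h2 : (C.subgroupOf T).index ∣ p - 1 := by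
    rw [← hker, Subgroup.index_ker]
    have h3 := Subgroup.card_subgroup_dvd_card ((MulAut.conjNormal (H := P)).comp T.subtype).range
    have h4 : Nat.card (MulAut P) = p - 1 := by
      rw [IsCyclic.card_mulAut, hL.cP, Nat.totient_prime hp.out]
    rwa [h4] at h3
  obtain ⟨f, hf⟩ := h2
  refine ⟨(C.subgroupOf T).index, f, ?_, ?_, ?_⟩
  · rw [hstb, h1]
  · rw [← hf]
    have := hp.out.two_le
    omega
  · rw [hstb]
    exact Subgroup.card_subgroup_dvd_card T

end Pool.Agent.K3h51.OP
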